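import Pool.Agent.Lib_helper8.QP.Final

set_option autoImplicit false

open Finset

namespace Pool.Agent.Results.MP_cf5f8b_an.QuasiPolynomial

/-- **A quasi-polynomial Aaronson-Ambainis theorem for all bounded polynomials.**

For every `f` from `{-1,1}^n` to `[-1,1]` which is not constant and has Fourier degree at most `d`
(all Fourier coefficients at sets of more than `d` coordinates vanish), some coordinate has
influence at least `exp (-10000 (log(2d)^3 + log(2d) log(2/Var f)))`, that is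
`(Var f / 2) ^ (C log (2d)) * (2d) ^ (- C log(2d)^2)` with `C = 10000`. -/
theorem result (n : ℕ) (f : (Fin n → Bool) → ℝ) (hf : ∀ x, |f x| ≤ 1) (d : ℕ) (hd : 1 ≤ d)
    (hdeg : ∀ S : Finset (Fin n), d < S.card →
      ∑ x : Fin n → Bool, f x * ∏ i ∈ S, (-1 : ℝ) ^ (x i).toNat = 0)
    (hvar : 0 < ((2 : ℝ) ^ n)⁻¹ * ∑ x : Fin n → Bool, f x ^ 2
      - (((2 : ℝ) ^ n)⁻¹ * ∑ x : Fin n → Bool, f x) ^ 2) :
    ∃ j : Fin n,
      Real.exp (-10000 * (Real.log (2 * d) ^ 3 + Real.log (2 * d) *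
        Real.log (2 / (((2 : ℝ) ^ n)⁻¹ * ∑ x : Fin n → Bool, f x ^ 2
          - (((2 : ℝ) ^ n)⁻¹ * ∑ x : Fin n → Bool, f x) ^ 2)))) ≤
      ((2 : ℝ) ^ n)⁻¹ * ∑ x : Fin n → Bool,
        ((f x - f (Function.update x j (!x j))) / 2) ^ 2 := by
  have hcard : Fintype.card (Fin n) = n := Fintype.card_fin n
  have hlow : Lib_helper8.QP.LowDeg d f := by
    intro S hS
    unfold Lib_helper30.AA.coef Lib_helper30.AA.chi
    rw [hdeg S hS, mul_zero]
  obtain ⟨j, hj⟩ := Lib_helper8.QP.quasipoly hd f hf hlow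
    (V := ((2 : ℝ) ^ n)⁻¹ * ∑ x : Fin n → Bool, f x ^ 2
      - (((2 : ℝ) ^ n)⁻¹ * ∑ x : Fin n → Bool, f x) ^ 2) hvar
    (by unfold Lib_helper8.QP.av; rw [hcard])
  refine ⟨j, hj.trans (le_of_eq ?_)⟩
  unfold Lib_helper8.QP.inf Lib_helper8.QP.av
  rw [hcard]
  congr 1
  refine Finset.sum_congr rfl fun x _ => ?_
  exact Lib_helper9.QP.D_sq j f x

end Pool.Agent.Results.MP_cf5f8b_an.QuasiPolynomial
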